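import Pool.Agent.Helper43.FV.Spec

/-!
# SUMM: generic freeness as a splitting property
-/

namespace Pool.Agent.Helper43.FV

open Polynomial

/-- the splitting property `F_h` of a module -/
def SUMM_F {S : Type} [CommRing S] (h : S) (Q : Type) [AddCommGroup Q] [Module S Q] : Prop :=
  ∀ (P : Type) [AddCommGroup P] [Module S P] (f : P →ₗ[S] Q), Function.Surjective f →
    ∀ (m : Ideal S) (x : P), x ∈ LinearMap.ker f → x ∈ m • (⊤ : Submodule S P) →
      ∃ n : ℕ, h ^ n • x ∈ m • LinearMap.ker f

theorem SUMM_F_mul {S : Type} [CommRing S] {h : S} {Q : Type} [AddCommGroup Q] [Module S Q]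
    (hF : SUMM_F h Q) (h' : S) : SUMM_F (h * h') Q := by
  intro P _ _ f hf m x hx hm
  obtain ⟨n, hn⟩ := hF P f hf m x hx hm
  refine ⟨n, ?_⟩
  rw [mul_pow, mul_comm, mul_smul]
  exact Submodule.smul_mem _ _ hn

theorem SUMM_F_dvd {S : Type} [CommRing S] {h h' : S} {Q : Type} [AddCommGroup Q] [Module S Q]
    (hF : SUMM_F h Q) (hd : h ∣ h') : SUMM_F h' Q := by
  obtain ⟨c, rfl⟩ := hd
  exact SUMM_F_mul hF c

theorem SUMM_F_equiv {S : Type} [CommRing S] {h : S} {Q Q' : Type} [AddCommGroup Q] [Module S Q]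
    [AddCommGroup Q'] [Module S Q'] (hF : SUMM_F h Q) (e : Q ≃ₗ[S] Q') : SUMM_F h Q' := by
  intro P _ _ f hf m x hx hm
  have hk : LinearMap.ker ((e.symm : Q' →ₗ[S] Q) ∘ₗ f) = LinearMap.ker f := by
    ext y
    simp
  have := hF P ((e.symm : Q' →ₗ[S] Q) ∘ₗ f) (e.symm.surjective.comp hf) m x (by rw [hk]; exact hx) hm
  rwa [hk] at this

/-- the property for submodules -/
theorem SUMM_F_sub {S : Type} [CommRing S] {h : S} {Q : Type} [AddCommGroup Q] [Module S Q]
    (hF : SUMM_F h Q) {V : Type} [AddCommGroup V] [Module S V] (A B : Submodule S V)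
    (g : B →ₗ[S] Q) (hg : Function.Surjective g) (hk : ∀ b : B, g b = 0 ↔ (b : V) ∈ A)
    (hAB : A ≤ B) (m : Ideal S) (x : V) (hx : x ∈ A) (hm : x ∈ m • B) :
    ∃ n : ℕ, h ^ n • x ∈ m • A := by
  obtain ⟨n, hn⟩ := hF B g hg m ⟨x, hAB hx⟩ (by
    rw [LinearMap.mem_ker, hk]
    exact hx) (by
    rw [Submodule.mem_smul_top_iff]
    exact hm)
  refine ⟨n, ?_⟩
  have h1 : B.subtype (h ^ n • (⟨x, hAB hx⟩ : B)) ∈ (m • LinearMap.ker g).map B.subtype :=
    Submodule.mem_map_of_mem hn
  rw [Submodule.map_smul''] at h1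
  have h2 : (LinearMap.ker g).map B.subtype ≤ A := by
    rintro _ ⟨b, hb, rfl⟩
    exact (hk b).1 hb
  exact Submodule.smul_mono le_rfl h2 h1

/-- finitely generated modules over a domain -/
theorem SUMM_base (S : Type) [CommRing S] [IsDomain S] (M : Type) [AddCommGroup M] [Module S M]
    [Module.Finite S M] : ∃ h : S, h ≠ 0 ∧ SUMM_F h M := by
  classical
  obtain ⟨n, v, hv⟩ := Module.Finite.exists_fin (R := S) (M := M)
  obtain ⟨s, hs, hmax⟩ := exists_maximal_linearIndepOn S v
  have hmax' : ∀ i, ∃ a : S, a ≠ 0 ∧ a • v i ∈ Submodule.span S (v '' s) := by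
    intro i
    by_cases hi : i ∈ s
    · exact ⟨1, one_ne_zero, by
        rw [one_smul]
        exact Submodule.subset_span ⟨i, hi, rfl⟩⟩
    · exact hmax i hi
  choose a ha hav using hmax'
  have hall : ∀ x : M, (∏ i, a i) • x ∈ Submodule.span S (v '' s) := by
    intro x
    have hx : x ∈ Submodule.span S (Set.range v) := by
      rw [hv]
      trivial
    induction hx using Submodule.span_induction with
    | mem y hy =>
      obtain ⟨i, rfl⟩ := hy
      rw [← Finset.prod_erase_mul _ _ (Finset.mem_univ i), mul_smul]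
      exact Submodule.smul_mem _ _ (hav i)
    | zero =>
      rw [smul_zero]
      exact Submodule.zero_mem _
    | add y z _ _ hy hz =>
      rw [smul_add]
      exact Submodule.add_mem _ hy hz
    | smul c y _ hy =>
      rw [smul_comm]
      exact Submodule.smul_mem _ _ hy
  refine ⟨∏ i, a i, Finset.prod_ne_zero_iff.2 (fun i _ => ha i), ?_⟩
  set h : S := ∏ i, a i with hh
  have himg : v '' s = Set.range (fun i : s => v i) := by
    ext y
    simp
  intro P _ _ f hf m x hx hm
  choose g hg using hf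
  have hstep : ∃ c : s → S, h • x - ∑ i, c i • g (v i) ∈ m • LinearMap.ker f := by
    clear hx
    refine Submodule.smul_induction_on hm ?_ ?_
    · rintro r hr p -
      have hp := hall (f p)
      rw [himg, Submodule.mem_span_range_iff_exists_fun] at hp
      obtain ⟨c, hc⟩ := hp
      refine ⟨fun i => r * c i, ?_⟩
      have h1 : h • (r • p) - ∑ i : s, (r * c i) • g (v i) = r • (h • p - ∑ i : s, c i • g (v i)) := by
        rw [smul_sub, Finset.smul_sum, smul_comm h r p]
        simp only [mul_smul]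
      rw [h1]
      refine Submodule.smul_mem_smul hr ?_
      rw [LinearMap.mem_ker, map_sub, map_smul, map_sum, sub_eq_zero, ← hc]
      refine Finset.sum_congr rfl (fun i _ => ?_)
      rw [map_smul, hg]
    · rintro p q ⟨c, hc⟩ ⟨d, hd⟩
      refine ⟨fun i => c i + d i, ?_⟩
      have h1 : h • (p + q) - ∑ i : s, (c i + d i) • g (v i)
          = (h • p - ∑ i : s, c i • g (v i)) + (h • q - ∑ i : s, d i • g (v i)) := by
        simp only [add_smul, Finset.sum_add_distrib, smul_add]
        abel
      rw [h1]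
      exact Submodule.add_mem _ hc hd
  obtain ⟨c, hc⟩ := hstep
  have hc0 : ∀ i, c i = 0 := by
    have h1 : f (h • x - ∑ i, c i • g (v i)) = 0 := Submodule.smul_le_right hc
    rw [map_sub, map_smul, LinearMap.mem_ker.1 hx, smul_zero, map_sum, zero_sub, neg_eq_zero] at h1
    simp only [map_smul, hg] at h1
    exact Fintype.linearIndependent_iff.1 hs c h1
  refine ⟨1, ?_⟩
  simpa [hc0] using hc

/-- the filtration lemma -/
theorem SUMM_filt {S A : Type} [CommRing S] [CommRing A] [Algebra S A] {h : S}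
    {V : Type} [AddCommGroup V] [Module S V] [Module A V] [IsScalarTower S A V]
    (W : ℕ → Submodule A V) (hmono : Monotone W) (hex : ∀ v : V, ∃ i, v ∈ W i)
    (h0 : SUMM_F h (W 0))
    (h1 : ∀ i, SUMM_F h (W (i + 1) ⧸ (W i).submoduleOf (W (i + 1)))) : SUMM_F h V := by
  intro P _ _ f hf m x hx hm
  set U : ℕ → Submodule S P := fun i => ((W i).restrictScalars S).comap f with hU
  have hUm : Monotone U := by
    intro i j hij p hp
    exact hmono hij hp
  have hUt : (⨆ i, U i) = ⊤ := by
    rw [eq_top_iff]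
    rintro p -
    obtain ⟨i, hi⟩ := hex (f p)
    exact (le_iSup U i) hi
  -- x lies in some m • U i
  have key : ∃ i, x ∈ m • U i := by
    rw [← hUt, Submodule.smul_iSup] at hm
    rw [Submodule.mem_iSup_of_directed] at hm
    · exact hm
    · exact Monotone.directed_le (fun i j hij => Submodule.smul_mono le_rfl (hUm hij))
  obtain ⟨i, hi⟩ := key
  clear hm
  induction i generalizing x with
  | zero =>
    -- g : U 0 → W 0
    let g : U 0 →ₗ[S] (W 0) :=
      { toFun := fun p => ⟨f p, p.2⟩
        map_add' := fun p q => by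
          ext
          simp
        map_smul' := fun c p => by
          ext
          simp }
    refine SUMM_F_sub h0 (LinearMap.ker f) (U 0) g ?_ ?_ ?_ m x hx hi
    · rintro ⟨w, hw⟩
      obtain ⟨p, hp⟩ := hf w
      refine ⟨⟨p, ?_⟩, ?_⟩
      · show f p ∈ W 0
        rw [hp]
        exact hw
      · ext
        exact hp
    · intro b
      rw [LinearMap.mem_ker]
      constructor
      · intro hb
        exact congrArg Subtype.val hb
      · intro hb
        ext
        exact hb
    · intro p hp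
      show f p ∈ W 0
      rw [LinearMap.mem_ker.1 hp]
      exact (W 0).zero_mem
  | succ i ih =>
    let g0 : U (i + 1) →ₗ[S] (W (i + 1)) :=
      { toFun := fun p => ⟨f p, p.2⟩
        map_add' := fun p q => by
          ext
          simp
        map_smul' := fun c p => by
          ext
          simp }
    let g : U (i + 1) →ₗ[S] (W (i + 1) ⧸ (W i).submoduleOf (W (i + 1))) :=
      (((W i).submoduleOf (W (i + 1))).mkQ.restrictScalars S) ∘ₗ g0
    have hxi : x ∈ U i := by
      show f x ∈ W i
      rw [LinearMap.mem_ker.1 hx]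
      exact (W i).zero_mem
    obtain ⟨n, hn⟩ := SUMM_F_sub (h1 i) (U i) (U (i + 1)) g (by
      intro q
      obtain ⟨w, rfl⟩ := Submodule.Quotient.mk_surjective _ q
      obtain ⟨w, hw⟩ := w
      obtain ⟨p, hp⟩ := hf w
      refine ⟨⟨p, ?_⟩, ?_⟩
      · show f p ∈ W (i + 1)
        rw [hp]
        exact hw
      · show Submodule.Quotient.mk (⟨f p, _⟩ : W (i + 1)) = _
        congr 1
        ext
        exact hp) (by
      intro b
      show Submodule.Quotient.mk (⟨f b, _⟩ : W (i + 1)) = 0 ↔ f b ∈ W i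
      rw [Submodule.Quotient.mk_eq_zero]
      exact Iff.rfl) (hUm (Nat.le_succ i)) m x hxi hi
    obtain ⟨n', hn'⟩ := ih (h ^ n • x) (Submodule.smul_mem _ _ hx) hn
    refine ⟨n' + n, ?_⟩
    rw [pow_add, mul_smul]
    exact hn'

/-- the claim for an algebra -/
def SUMM_C (S A : Type) [CommRing S] [CommRing A] [Algebra S A] : Prop :=
  ∀ (M : Type) [AddCommGroup M] [Module S M] [Module A M] [IsScalarTower S A M]
    [Module.Finite A M], ∃ h : S, h ≠ 0 ∧ SUMM_F h M

/-- the polynomial step -/
theorem SUMM_step (S A : Type) [CommRing S] [IsDomain S] [CommRing A] [Algebra S A]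
    [IsNoetherianRing A] (hC : SUMM_C S A) : SUMM_C S A[X] := by
  classical
  intro V _ _ _ _ _
  let _ : Module A V := Module.compHom V (algebraMap A A[X])
  have _ : IsScalarTower A A[X] V := IsScalarTower.of_algebraMap_smul (fun _ _ => rfl)
  have _ : IsScalarTower S A V := IsScalarTower.to₁₂₄ S A A[X] V
  obtain ⟨n, v, hv⟩ := Module.Finite.exists_fin (R := A[X]) (M := V)
  set M' : Submodule A V := Submodule.span A (Set.range v) with hM'
  have hfin : Module.Finite A M' := by
    rw [Module.Finite.iff_fg]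
    exact Submodule.fg_span (Set.finite_range v)
  have hnoeth : IsNoetherian A M' := isNoetherian_of_isNoetherianRing_of_finite A M'
  let μ : ℕ → (V →ₗ[A] V) := fun i => (LinearMap.lsmul A[X] V (X ^ i)).restrictScalars A
  have hμ : ∀ i x, μ i x = (X ^ i : A[X]) • x := fun i x => rfl
  let W : ℕ → Submodule A V := fun i => (Finset.range (i + 1)).sup (fun j => M'.map (μ j))
  have hWs : ∀ i, W (i + 1) = M'.map (μ (i + 1)) ⊔ W i := by
    intro i
    show (Finset.range (i + 1 + 1)).sup (fun j => M'.map (μ j)) = _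
    rw [Finset.range_add_one, Finset.sup_insert]
  have hW0 : W 0 = M' := by
    show (Finset.range (0 + 1)).sup (fun j => M'.map (μ j)) = _
    rw [zero_add, Finset.range_one, Finset.sup_singleton]
    ext x
    constructor
    · rintro ⟨y, hy, rfl⟩
      rw [hμ, pow_zero, one_smul]
      exact hy
    · intro hx
      exact ⟨x, hx, by rw [hμ, pow_zero, one_smul]⟩
  have hmono : Monotone W := by
    refine monotone_nat_of_le_succ (fun i => ?_)
    rw [hWs]
    exact le_sup_right
  have hXW : ∀ i x, x ∈ W i → (X : A[X]) • x ∈ W (i + 1) := by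
    intro i x hx
    have h1 : W i ≤ (W (i + 1)).comap (μ 1) := by
      refine Finset.sup_le (fun j hj => ?_)
      rintro _ ⟨y, hy, rfl⟩
      rw [Submodule.mem_comap, hμ, hμ, smul_smul, ← pow_add, add_comm 1 j]
      have h2 : M'.map (μ (j + 1)) ≤ W (i + 1) :=
        Finset.le_sup (f := fun j => M'.map (μ j)) (Finset.mem_range.2 (by
          have := Finset.mem_range.1 hj
          omega))
      exact h2 ⟨y, hy, rfl⟩
    have h3 := h1 hx
    rw [Submodule.mem_comap, hμ, pow_one] at h3
    exact h3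
  have hXkW : ∀ k i x, x ∈ W i → (X ^ k : A[X]) • x ∈ W (i + k) := by
    intro k
    induction k with
    | zero =>
      intro i x hx
      rw [pow_zero, one_smul]
      exact hx
    | succ k ih =>
      intro i x hx
      rw [pow_succ', mul_smul, ← add_assoc]
      exact hXW _ _ (ih i x hx)
  have hex : ∀ x : V, ∃ i, x ∈ W i := by
    intro x
    have hx : x ∈ Submodule.span A[X] (Set.range v) := by
      rw [hv]
      trivial
    induction hx using Submodule.span_induction with
    | mem y hy =>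
      refine ⟨0, ?_⟩
      rw [hW0]
      exact Submodule.subset_span hy
    | zero => exact ⟨0, Submodule.zero_mem _⟩
    | add y z _ _ hy hz =>
      obtain ⟨i, hi⟩ := hy
      obtain ⟨j, hj⟩ := hz
      exact ⟨i + j, Submodule.add_mem _ (hmono (Nat.le_add_right i j) hi)
        (hmono (Nat.le_add_left j i) hj)⟩
    | smul c y _ hy =>
      obtain ⟨i, hi⟩ := hy
      refine ⟨i + c.natDegree, ?_⟩
      have hcy : c • y = ∑ k ∈ Finset.range (c.natDegree + 1), (C (c.coeff k) * X ^ k) • y := by
        rw [← Finset.sum_smul, ← c.as_sum_range_C_mul_X_pow]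
      rw [hcy]
      refine Submodule.sum_mem _ (fun k hk => ?_)
      rw [mul_smul, ← Polynomial.algebraMap_eq, algebraMap_smul]
      refine Submodule.smul_mem _ _ (hmono ?_ (hXkW k i y hi))
      have := Finset.mem_range.1 hk
      omega
  have hmem : ∀ i (y : M'), μ (i + 1) y ∈ W (i + 1) := by
    intro i y
    rw [hWs]
    exact Submodule.mem_sup_left ⟨y, y.2, rfl⟩
  let φ : ∀ i, M' →ₗ[A] (W (i + 1) ⧸ (W i).submoduleOf (W (i + 1))) := fun i =>
    ((W i).submoduleOf (W (i + 1))).mkQ ∘ₗ
      (((μ (i + 1)) ∘ₗ M'.subtype).codRestrict (W (i + 1)) (hmem i))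
  have hφ : ∀ i (y : M'), φ i y = 0 ↔ (X ^ (i + 1) : A[X]) • (y : V) ∈ W i := by
    intro i y
    show Submodule.Quotient.mk _ = 0 ↔ _
    rw [Submodule.Quotient.mk_eq_zero]
    exact Iff.rfl
  have hφs : ∀ i, Function.Surjective (φ i) := by
    intro i q
    obtain ⟨w, rfl⟩ := Submodule.Quotient.mk_surjective _ q
    obtain ⟨w, hw⟩ := w
    have hw' := hw
    rw [hWs, Submodule.mem_sup] at hw'
    obtain ⟨_, ⟨y, hy, rfl⟩, z, hz, hyz⟩ := hw'
    refine ⟨⟨y, hy⟩, ?_⟩
    show Submodule.Quotient.mk _ = _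
    rw [Submodule.Quotient.eq]
    show μ (i + 1) y - w ∈ W i
    have : μ (i + 1) y - w = - z := by
      rw [← hyz]
      abel
    rw [this]
    exact Submodule.neg_mem _ hz
  let N : ℕ →o Submodule A M' := ⟨fun i => LinearMap.ker (φ i), by
    refine monotone_nat_of_le_succ (fun i y hy => ?_)
    rw [LinearMap.mem_ker, hφ] at hy ⊢
    rw [pow_succ', mul_smul]
    exact hXW _ _ hy⟩
  obtain ⟨k, hk⟩ := monotone_stabilizes_iff_noetherian.2 hnoeth N
  have hCi : ∀ i, ∃ h : S, h ≠ 0 ∧ SUMM_F h (M' ⧸ N i) := fun i => hC _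
  choose h hh0 hhF using hCi
  obtain ⟨h₀, hh₀, hF₀⟩ := hC M'
  refine ⟨h₀ * ∏ i ∈ Finset.range (k + 1), h i,
    mul_ne_zero hh₀ (Finset.prod_ne_zero_iff.2 (fun i _ => hh0 i)), ?_⟩
  refine SUMM_filt W hmono hex ?_ ?_
  · refine SUMM_F_equiv (SUMM_F_mul hF₀ _) ((LinearEquiv.ofEq _ _ hW0.symm).restrictScalars S)
  · intro i
    have h1 : SUMM_F (h₀ * ∏ i ∈ Finset.range (k + 1), h i) (M' ⧸ N i) := by
      by_cases hik : i ≤ k
      · refine SUMM_F_dvd (hhF i) (Dvd.dvd.mul_left (Finset.dvd_prod_of_mem h ?_) _)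
        exact Finset.mem_range.2 (by omega)
      · have h2 : SUMM_F (h₀ * ∏ i ∈ Finset.range (k + 1), h i) (M' ⧸ N k) := by
          refine SUMM_F_dvd (hhF k) (Dvd.dvd.mul_left (Finset.dvd_prod_of_mem h ?_) _)
          exact Finset.mem_range.2 (by omega)
        rw [← hk i (by omega)]
        exact h2
    exact SUMM_F_equiv h1
      (((φ i).quotKerEquivOfSurjective (hφs i)).restrictScalars S)

theorem SUMM_surj (S A B : Type) [CommRing S] [CommRing A] [Algebra S A] [CommRing B] [Algebra S B]
    (f : A →ₐ[S] B) (hf : Function.Surjective f) (hC : SUMM_C S A) : SUMM_C S B := by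
  intro V _ _ _ _ _
  let _ : Module A V := Module.compHom V (f : A →+* B)
  let _ : Algebra A B := (f : A →+* B).toAlgebra
  have _ : IsScalarTower A B V := IsScalarTower.of_algebraMap_smul (fun _ _ => rfl)
  have _ : IsScalarTower S A B := IsScalarTower.of_algebraMap_eq (fun s => (f.commutes s).symm)
  have _ : IsScalarTower S A V := IsScalarTower.to₁₂₄ S A B V
  have _ : Module.Finite A B := Module.Finite.of_surjective (Algebra.linearMap A B) hf
  have _ : Module.Finite A V := Module.Finite.trans B V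
  exact hC V

theorem SUMM_mv (S : Type) [CommRing S] [IsDomain S] [IsNoetherianRing S] (n : ℕ) :
    SUMM_C S (MvPolynomial (Fin n) S) := by
  induction n with
  | zero =>
    intro V _ _ _ _ _
    have _ : Module.Finite S (MvPolynomial (Fin 0) S) :=
      Module.Finite.of_surjective (Algebra.linearMap S (MvPolynomial (Fin 0) S))
        (MvPolynomial.C_surjective (Fin 0))
    have _ : Module.Finite S V := Module.Finite.trans (MvPolynomial (Fin 0) S) V
    exact SUMM_base S V
  | succ n ih =>
    exact SUMM_surj S _ _ ((MvPolynomial.finSuccEquiv S n).symm : _ →ₐ[S] _)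
      (MvPolynomial.finSuccEquiv S n).symm.surjective (SUMM_step S _ ih)

theorem st_SUMM : ST_SUMM := by
  intro S T _ _ _ _ _ _ I
  obtain ⟨n, f, hf⟩ := Algebra.FiniteType.iff_quotient_mvPolynomial''.1
    (inferInstance : Algebra.FiniteType S T)
  obtain ⟨h, hh, hF⟩ := SUMM_surj S _ T f hf (SUMM_mv S n) (T ⧸ I)
  refine ⟨h, hh, ?_⟩
  intro m _ _ x hx hxm
  have hk : LinearMap.ker ((Submodule.mkQ I).restrictScalars S) = I.restrictScalars S := by
    ext y
    rw [LinearMap.mem_ker]
    show Submodule.Quotient.mk y = 0 ↔ _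
    rw [Submodule.Quotient.mk_eq_zero]
    exact Iff.rfl
  obtain ⟨k, hk'⟩ := hF T ((Submodule.mkQ I).restrictScalars S) (Submodule.mkQ_surjective I) m x
    (by rw [hk]; exact hx) (by rw [Ideal.smul_top_eq_map]; exact hxm)
  refine ⟨k, ?_⟩
  rw [hk] at hk'
  rw [← Algebra.smul_def]
  refine Submodule.smul_induction_on hk' ?_ ?_
  · intro r hr y hy
    rw [Algebra.smul_def]
    exact Ideal.mul_mem_mul (Ideal.mem_map_of_mem _ hr) hy
  · intro y z hy hz
    exact Ideal.add_mem _ hy hz

end Pool.Agent.Helper43.FV
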